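import Pool.Agent.V1153.GH.Cst
import Pool.Agent.V1153.XS.Pt

/-!
Curves given by sums of products of polynomials of arbitrary degrees and exponentials of entire
functions: either there is a curve of the punctured line of bounded degree or the curve is rational.
-/

set_option autoImplicit false

namespace Pool.Agent.Helper51K9.KB

open MvPolynomial Pool.Agent.V1153.UG Pool.Agent.V1153.XS

/-- **Dichotomy.** Let the entire curve `f` in the hypersurface `F = 0` of degree `d` be given by sums
of `r` products of polynomials and exponentials of entire functions. Either the hypersurface contains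
a nonconstant curve of the punctured line whose degree is bounded in terms of `n`, `d`, `r`, or `f` is
proportional to a vector of polynomials. -/
theorem dichotomy (n d r : ℕ) : ∃ N, ∀ (F : MvPolynomial (Fin (n + 1)) ℂ), F.IsHomogeneous d →
    ∀ (f : ℂ → Fin (n + 1) → ℂ) (p : Fin (n + 1) → Fin r → Polynomial ℂ)
    (g : Fin (n + 1) → Fin r → ℂ → ℂ), (∀ j i, Differentiable ℂ (g j i)) →
    (∀ z j, f z j = ∑ i, (p j i).eval z * Complex.exp (g j i z)) →
    (∀ z, eval (f z) F = 0) → (∃ z, f z ≠ 0) →
    (∃ P, GmBdd (Ideal.span {F}) 1 N P) ∨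
      ∃ R : Fin (n + 1) → Polynomial ℂ, R ≠ 0 ∧
        ∀ z j k, f z j * (R k).eval z = f z k * (R j).eval z := by
  classical
  obtain ⟨M, hM⟩ := sep_fun (Fin (n + 1) × Fin r) d
  refine ⟨2 * M, fun F hF f p g hg hfe hf hf0 => ?_⟩
  let g' : Fin (n + 1) × Fin r → ℂ → ℂ := fun a => g a.1 a.2
  have hg' : ∀ a, Differentiable ℂ (g' a) := fun a => hg a.1 a.2
  obtain ⟨μ, hμM, hμ, hμs⟩ := hM g'
  let e : Fin (n + 1) → Fin r → Fin (n + 1) × Fin r := fun j i => (j, i)
  have hspec : ∀ (z₀ t : ℂ), t ≠ 0 → ∀ (w : ℂ),
      eval₂ (Polynomial.evalRingHom w) (fun a => Complex.exp (g' a z₀) * t ^ μ a)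
        (subst e p F) = 0 := by
    intro z₀ t ht w
    refine core g' hg' _ w (subst e p F) (fun α hα β hβ c hc => ?_) (fun z => ?_)
    · rw [prod_tau _ _ ht, prod_tau _ _ ht, hc z₀, hμ α β
        (fun b => le_of_homog (subst_homog e p hF) hα b)
        (fun b => le_of_homog (subst_homog e p hF) hβ b) c hc, Complex.exp_add]
      ring
    · rw [eval_subst]
      have h3 : f z = fun j => ∑ i, (p j i).eval z * Complex.exp (g' (e j i) z) :=
        funext (hfe z)
      rw [← h3]
      exact hf z
  let m : Fin (n + 1) × Fin r → ℕ := fun a => (μ a + M).toNat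
  have hm : ∀ a, (m a : ℤ) = μ a + M := fun a =>
    Int.toNat_of_nonneg (by have := (abs_le.1 (hμM a)).1; omega)
  let P : ℂ → Fin (n + 1) → Polynomial ℂ := fun z₀ j =>
    ∑ i, Polynomial.C ((p j i).eval z₀ * Complex.exp (g j i z₀)) * Polynomial.X ^ m (e j i)
  have hPe0 : ∀ z₀ t j, (P z₀ j).eval t = ∑ i, ((p j i).eval z₀ * Complex.exp (g j i z₀)) *
      t ^ m (e j i) := by
    intro z₀ t j
    simp only [P]
    rw [Polynomial.eval_finsetSum]
    refine Finset.sum_congr rfl fun i _ => ?_
    simp only [Polynomial.eval_mul, Polynomial.eval_C, Polynomial.eval_pow, Polynomial.eval_X]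
  have hP1 : ∀ z₀ j, (P z₀ j).eval 1 = f z₀ j := by
    intro z₀ j
    rw [hPe0, hfe]
    refine Finset.sum_congr rfl fun i _ => ?_
    rw [one_pow, mul_one]
  by_cases hnc : ∃ z₀ s t j k, (P z₀ j).eval s * (P z₀ k).eval t ≠ (P z₀ k).eval s * (P z₀ j).eval t
  · left
    obtain ⟨z₀, hnc⟩ := hnc
    refine ⟨P z₀, ⟨fun j => ?_, fun G hGI _ => ?_, ?_, hnc⟩⟩
    · refine Polynomial.natDegree_sum_le_of_forall_le _ _ fun i _ => ?_
      refine (Polynomial.natDegree_C_mul_X_pow_le _ _).trans ?_
      have h1 := hm (e j i)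
      have h2 := (abs_le.1 (hμM (e j i))).2
      omega
    · have h1 : Ideal.span {F} ≤ RingHom.ker (aeval (P z₀) : MvPolynomial (Fin (n + 1)) ℂ →ₐ[ℂ]
          Polynomial ℂ) := by
        rw [Ideal.span_le, Set.singleton_subset_iff]
        change aeval (P z₀) F = 0
        refine poly_zero fun t ht _ => ?_
        have h4 := hspec z₀ t ht z₀
        rw [eval_subst] at h4
        have h5 : (fun j => (P z₀ j).eval t) = fun j => t ^ M *
            ∑ i, (p j i).eval z₀ * (Complex.exp (g' (e j i) z₀) * t ^ μ (e j i)) := by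
          funext j
          rw [hPe0, Finset.mul_sum]
          refine Finset.sum_congr rfl fun i _ => ?_
          have h1 : t ^ m (e j i) = t ^ M * t ^ μ (e j i) := by
            rw [← zpow_natCast t (m (e j i)), hm, add_comm, zpow_add₀ ht, zpow_natCast]
          rw [h1]
          ring
        rw [eval_aeval, h5, eval_homog hF, h4, mul_zero]
      exact h1 hGI
    · exact ⟨1, 0, one_ne_zero, by rw [map_one]; simp⟩
  · right
    push Not at hnc
    have hpar : ∀ z j k, f z j • P z k = f z k • P z j := by
      intro z j k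
      apply Polynomial.funext
      intro t
      rw [Polynomial.eval_smul, Polynomial.eval_smul, smul_eq_mul, smul_eq_mul, ← hP1, ← hP1]
      exact hnc z 1 t j k
    obtain ⟨z₁, hz₁⟩ := hf0
    obtain ⟨k₁, hk₁⟩ : ∃ k, f z₁ k ≠ 0 := by
      by_contra hcon
      push Not at hcon
      exact hz₁ (funext hcon)
    have hPk : P z₁ k₁ ≠ 0 := by
      intro h0
      apply hk₁
      rw [← hP1, h0, Polynomial.eval_zero]
    obtain ⟨N₁, hN₁⟩ : ∃ N₁, (P z₁ k₁).coeff N₁ ≠ 0 := by
      by_contra hcon
      push Not at hcon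
      exact hPk (Polynomial.ext fun i => by rw [hcon i, Polynomial.coeff_zero])
    have hcoef : ∀ z k N, (P z k).coeff N
        = ∑ i, if m (e k i) = N then (p k i).eval z * Complex.exp (g k i z) else 0 := by
      intro z k N
      simp only [P]
      rw [Polynomial.finsetSum_coeff]
      refine Finset.sum_congr rfl fun i _ => ?_
      rw [Polynomial.coeff_C_mul, Polynomial.coeff_X_pow]
      by_cases h : m (e k i) = N
      · rw [if_pos h, if_pos h.symm, mul_one]
      · rw [if_neg h, if_neg (fun h' => h h'.symm), mul_zero]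
    obtain ⟨i₁, hi₁⟩ : ∃ i, m (e k₁ i) = N₁ := by
      by_contra hcon
      push Not at hcon
      apply hN₁
      rw [hcoef]
      exact Finset.sum_eq_zero fun i _ => if_neg (hcon i)
    have hc : ∀ a, ∃ c : ℂ, m a = N₁ → ∀ z, g' a z = g' (e k₁ i₁) z + c := by
      intro a
      by_cases h : m a = N₁
      · obtain ⟨c, hc⟩ := hμs a (e k₁ i₁) (by
          have h5 := hm a
          have h6 := hm (e k₁ i₁)
          rw [h] at h5
          rw [hi₁] at h6
          omega)
        exact ⟨c, fun _ => hc⟩
      · exact ⟨0, fun h' => absurd h' h⟩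
    choose c hc using hc
    let R : Fin (n + 1) → Polynomial ℂ := fun k =>
      ∑ i, if m (e k i) = N₁ then Polynomial.C (Complex.exp (c (e k i))) * p k i else 0
    have hR : ∀ z k, (P z k).coeff N₁ = Complex.exp (g' (e k₁ i₁) z) * (R k).eval z := by
      intro z k
      rw [hcoef]
      simp only [R]
      rw [Polynomial.eval_finsetSum, Finset.mul_sum]
      refine Finset.sum_congr rfl fun i _ => ?_
      by_cases h : m (e k i) = N₁
      · rw [if_pos h, if_pos h, Polynomial.eval_mul, Polynomial.eval_C]
        have h1 : g k i z = g' (e k₁ i₁) z + c (e k i) := hc (e k i) h z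
        rw [h1, Complex.exp_add]
        ring
      · rw [if_neg h, if_neg h, Polynomial.eval_zero, mul_zero]
    refine ⟨R, ?_, fun z j k => ?_⟩
    · intro h0
      apply hN₁
      rw [hR, h0]
      simp
    · have h1 := congrArg (fun q => Polynomial.coeff q N₁) (hpar z j k)
      simp only [Polynomial.coeff_smul, smul_eq_mul] at h1
      rw [hR, hR] at h1
      apply mul_left_cancel₀ (Complex.exp_ne_zero (g' (e k₁ i₁) z))
      linear_combination h1

end Pool.Agent.Helper51K9.KB
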