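import Pool.Agent.V1153.GH.Cst
import Pool.Agent.V1153.XS.Pt
import Pool.Agent.H458.EC.Main

/-!
Freiman homomorphisms on the exponents of an entire curve in a hypersurface without curves of the
punctured line of small degree.
-/

set_option autoImplicit false

namespace Pool.Agent.Helper51K9.KB

open MvPolynomial Pool.Agent.V1153.UG Pool.Agent.V1153.XS H458.EC
open scoped PowerSeries

/-- `χ` is an (additive) Freiman homomorphism of order `d` on `E`. -/
def Frei (d : ℕ) (E : Set ℕ) (χ : ℕ → ℕ) : Prop :=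
  ∀ s t : Multiset ℕ, s.card = t.card → s.card ≤ d → (∀ k ∈ s, k ∈ E) → (∀ k ∈ t, k ∈ E) →
    s.sum = t.sum → (s.map χ).sum = (t.map χ).sum

theorem prod_pow_map (χ : ℕ → ℕ) (t : ℂ) (s : Multiset ℕ) :
    (s.map fun k => t ^ χ k).prod = t ^ (s.map χ).sum := by
  induction s using Multiset.induction_on with
  | empty => simp
  | cons a s ih => rw [Multiset.map_cons, Multiset.prod_cons, ih, Multiset.map_cons,
      Multiset.sum_cons, pow_add]

theorem fr_of_frei {d : ℕ} {E : Set ℕ} {χ : ℕ → ℕ} (h : Frei d E χ) (t : ℂ) :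
    Fr d E fun k => t ^ χ k := by
  intro s u h1 h2 h3 h4 h5
  rw [prod_pow_map, prod_pow_map, h s u h1 h2 h3 h4 h5]

/-- The character principle for a part of an entire curve. -/
theorem character' {n d : ℕ} {S : Set (MvPolynomial (Fin n) ℂ)} (hS : Forms d S)
    {f : ℂ → Fin n → ℂ} (hf : Differentiable ℂ f) {σ : ℕ → ℂ} {C₀ R₀ : ℝ} (hR₀ : 0 ≤ R₀)
    (hb₀ : ∀ k, tc f k ≠ 0 → ‖σ k‖ ≤ C₀ * R₀ ^ k) (hX : ∀ z, tw σ f z ∈ Cone S) {χ : ℕ → ℂ}
    {C R : ℝ} (hR : 0 ≤ R) (hb : ∀ k, tc f k ≠ 0 → ‖χ k * σ k‖ ≤ C * R ^ k)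
    (hχ : Fr d {k | tc f k ≠ 0} χ) (z : ℂ) : tw (fun k => χ k * σ k) f z ∈ Cone S := by
  intro F hF
  obtain ⟨e, he, hFe⟩ := hS F hF
  have h0 : MvPolynomial.eval₂ (PowerSeries.C (R := ℂ)) (ser σ f) F = 0 := by
    have h1 := ent_eval₂ F (A := ser σ f) (ent_ser hf hR₀ hb₀)
    apply eq_zero_of_ev h1.1
    intro w
    rw [h1.2 w]
    have : (fun i => ev (ser σ f i) w) = tw σ f w := by
      funext i
      rw [ev_ser hf hR₀ hb₀]
    rw [this]
    exact hX w F hF
  have h1 : MvPolynomial.eval₂ (PowerSeries.C (R := ℂ)) (ser (fun k => χ k * σ k) f) F = 0 := by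
    refine formal hχ he hFe (A := ser σ f) ?_ h0
    intro i
    have := Tw.base (E := {k | tc f k ≠ 0}) (χ := χ) (a := fun k => σ k * tc f k i) (by
      intro k hk
      have : tc f k = 0 := by simpa using hk
      simp [this])
    have e1 : (PowerSeries.mk fun k => χ k * (σ k * tc f k i)) = ser (fun k => χ k * σ k) f i := by
      unfold ser
      ext k
      rw [PowerSeries.coeff_mk, PowerSeries.coeff_mk, mul_assoc]
    rw [e1] at this
    exact this
  have h2 := (ent_eval₂ F (A := ser (fun k => χ k * σ k) f) (ent_ser hf hR hb)).2 z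
  rw [h1] at h2
  have : (fun i => ev (ser (fun k => χ k * σ k) f i) z) = tw (fun k => χ k * σ k) f z := by
    funext i
    rw [ev_ser hf hR hb]
  rw [this] at h2
  rw [← h2]
  simp [ev]

/-- the indicator -/
noncomputable def ind (A : Set ℕ) (k : ℕ) : ℂ := by
  classical
  exact if k ∈ A then 1 else 0

theorem ind_mem {A : Set ℕ} {k : ℕ} (h : k ∈ A) : ind A k = 1 := by
  classical
  unfold ind
  exact if_pos h

theorem ind_not {A : Set ℕ} {k : ℕ} (h : k ∉ A) : ind A k = 0 := by
  classical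
  unfold ind
  exact if_neg h

theorem norm_ind (A : Set ℕ) (k : ℕ) : ‖ind A k‖ ≤ 1 := by
  by_cases h : k ∈ A
  · rw [ind_mem h, norm_one]
  · rw [ind_not h, norm_zero]; exact zero_le_one

theorem ind_univ : ind Set.univ = fun _ => 1 := by
  funext k
  exact ind_mem (Set.mem_univ k)

variable {n : ℕ}

theorem bd_ind (f : ℂ → Fin n → ℂ) (A : Set ℕ) :
    ∀ k, tc f k ≠ 0 → ‖ind A k‖ ≤ 1 * (1 : ℝ) ^ k := by
  intro k _
  rw [one_pow, mul_one]
  exact norm_ind A k

theorem coeff_ser (σ : ℕ → ℂ) (f : ℂ → Fin n → ℂ) (i : Fin n) (k : ℕ) :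
    PowerSeries.coeff k (ser σ f i) = σ k * tc f k i := by
  unfold ser
  rw [PowerSeries.coeff_mk]

/-- The part of the curve with exponents in `A` is proportional to the curve. -/
def Prp (f : ℂ → Fin n → ℂ) (A : Set ℕ) : Prop :=
  ∀ j k, ser (ind A) f j * ser (ind Set.univ) f k = ser (ind A) f k * ser (ind Set.univ) f j

theorem Prp.tw {f : ℂ → Fin n → ℂ} (hf : Differentiable ℂ f) {A : Set ℕ} (h : Prp f A) (z : ℂ)
    (j k : Fin n) : tw (ind A) f z j * f z k = tw (ind A) f z k * f z j := by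
  have h1 := congrArg (fun B => ev B z) (h j k)
  have hA := ent_ser hf zero_le_one (bd_ind f A)
  have hU := ent_ser hf zero_le_one (bd_ind f Set.univ)
  rw [ev_mul (hA j) (hU k), ev_mul (hA k) (hU j), ev_ser hf zero_le_one (bd_ind f A),
    ev_ser hf zero_le_one (bd_ind f A), ev_ser hf zero_le_one (bd_ind f Set.univ),
    ev_ser hf zero_le_one (bd_ind f Set.univ), ind_univ, tw_one hf] at h1
  exact h1

theorem Prp.smul {f : ℂ → Fin n → ℂ} (hf : Differentiable ℂ f) (h0 : ∀ z, f z ≠ 0) {A : Set ℕ}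
    (h : Prp f A) (z : ℂ) : ∃ c : ℂ, H458.EC.tw (ind A) f z = c • f z := by
  obtain ⟨l, hl⟩ : ∃ l, f z l ≠ 0 := by
    by_contra hcon
    push Not at hcon
    exact h0 z (funext hcon)
  refine ⟨H458.EC.tw (ind A) f z l / f z l, funext fun j => ?_⟩
  rw [Pi.smul_apply, smul_eq_mul, div_mul_eq_mul_div, eq_div_iff hl]
  exact h.tw hf z j l

/-- cancellation in the domain of power series -/
theorem cancel {Φ G H : Fin n → ℂ⟦X⟧} (h1 : ∀ j k, G j * Φ k = G k * Φ j)
    (h2 : ∀ j k, H j * G k = H k * G j) (h3 : (∀ j, G j = 0) → ∀ j, H j = 0) (j k : Fin n) :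
    H j * Φ k = H k * Φ j := by
  by_cases hG : ∀ j, G j = 0
  · rw [h3 hG j, h3 hG k, zero_mul, zero_mul]
  · push Not at hG
    obtain ⟨l, hl⟩ := hG
    apply mul_left_cancel₀ hl
    calc G l * (H j * Φ k) = H j * (G l * Φ k) := by ring
      _ = H j * (G k * Φ l) := by rw [h1]
      _ = (H j * G k) * Φ l := by ring
      _ = (H k * G j) * Φ l := by rw [h2]
      _ = H k * (G j * Φ l) := by ring
      _ = H k * (G l * Φ j) := by rw [h1]
      _ = G l * (H k * Φ j) := by ring

theorem eq_of_ev {A B : ℂ⟦X⟧} (hA : Ent A) (hB : Ent B) (h : ∀ z, ev A z = ev B z) : A = B := by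
  have h1 : A + PowerSeries.C (-1) * B = 0 := by
    refine eq_zero_of_ev (hA.add ((Ent.C _).mul hB)) fun z => ?_
    rw [ev_add hA ((Ent.C _).mul hB), ev_mul (Ent.C _) hB, ev_C, h z]
    ring
  have h2 : PowerSeries.C (-1 : ℂ) = -1 := by rw [map_neg, map_one]
  rw [h2] at h1
  linear_combination h1

section hyp

variable {N d : ℕ} {F : MvPolynomial (Fin (n + 1)) ℂ} (hF : F.IsHomogeneous d)
  (hG : ∀ P, ¬ GmBdd (Ideal.span {F}) 1 N P)

omit hF in
include hG in
/-- curves of the punctured line of degree at most `N` are constant -/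
theorem no_gm {P : Fin (n + 1) → Polynomial ℂ} (hdeg : ∀ j, (P j).natDegree ≤ N)
    (h : ∀ t, t ≠ 0 → eval (fun j => (P j).eval t) F = 0) (s t : ℂ) (j k : Fin (n + 1)) :
    (P j).eval s * (P k).eval t = (P k).eval s * (P j).eval t := by
  by_contra hcon
  refine hG P ⟨hdeg, fun G hGI _ => ?_, ⟨1, 0, one_ne_zero, by rw [map_one]; simp⟩,
    ⟨s, t, j, k, hcon⟩⟩
  have h1 : Ideal.span {F} ≤ RingHom.ker (aeval P : MvPolynomial (Fin (n + 1)) ℂ →ₐ[ℂ]
      Polynomial ℂ) := by
    rw [Ideal.span_le, Set.singleton_subset_iff]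
    change aeval P F = 0
    refine poly_zero fun t ht _ => ?_
    rw [eval_aeval]
    exact h t ht
  exact h1 hGI

theorem forms_single (hF : F.IsHomogeneous d) : Forms d ({F} : Set (MvPolynomial (Fin (n + 1)) ℂ)) := by
  intro G hGF
  rw [Set.mem_singleton_iff] at hGF
  subst hGF
  exact ⟨d, le_rfl, hF⟩

variable {f : ℂ → Fin (n + 1) → ℂ} (hf : Differentiable ℂ f) (h0 : ∀ z, f z ≠ 0)
  (hfF : ∀ z, eval (f z) F = 0)

include hF hf h0 hfF in
theorem Prp.cone {A : Set ℕ} (h : Prp f A) (z : ℂ) : eval (H458.EC.tw (ind A) f z) F = 0 := by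
  obtain ⟨c, hc⟩ := h.smul hf h0 z
  rw [hc]
  have := eval_homog hF c (f z)
  rw [hfF z, mul_zero] at this
  exact this

include hF hG hf h0 hfF in
/-- **Step.** -/
theorem Prp.step {A : Set ℕ} (h : Prp f A) {χ : ℕ → ℕ} (hχ : Frei d {k | tc f k ≠ 0} χ)
    (hN : ∀ k, tc f k ≠ 0 → χ k ≤ N) (c : ℕ) (hc : c ≤ N) : Prp f (A ∩ {k | χ k = c}) := by
  classical
  set B : ℕ → Set ℕ := fun c => A ∩ {k | χ k = c} with hB
  -- the twisted curve
  have hdec : ∀ (z t : ℂ) (j : Fin (n + 1)), H458.EC.tw (fun k => t ^ χ k * ind A k) f z j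
      = ∑ c ∈ Finset.range (N + 1), H458.EC.tw (ind (B c)) f z j * t ^ c := by
    intro z t j
    have hs : ∀ c, Summable fun k => (ind (B c) k * z ^ k) • tc f k := fun c =>
      summable_tw hf zero_le_one (bd_ind f (B c)) z
    have h1 : ∀ c, H458.EC.tw (ind (B c)) f z j * t ^ c
        = ∑' k, (ind (B c) k * z ^ k) * tc f k j * t ^ c := by
      intro c
      unfold H458.EC.tw
      rw [tsum_apply (hs c), ← tsum_mul_right]
      rfl
    have h2 : Summable fun k => ((t ^ χ k * ind A k) * z ^ k) • tc f k := by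
      refine summable_tw hf (C := (1 + ‖t‖) ^ N) zero_le_one (fun k hk => ?_) z
      rw [norm_mul, norm_pow, one_pow, mul_one]
      calc ‖t‖ ^ χ k * ‖ind A k‖ ≤ (1 + ‖t‖) ^ χ k * 1 := by
            gcongr
            · linarith
            · exact norm_ind A k
        _ ≤ (1 + ‖t‖) ^ N := by
            rw [mul_one]
            exact pow_le_pow_right₀ (by linarith [norm_nonneg t]) (hN k hk)
    rw [Finset.sum_congr rfl fun c _ => h1 c, ← Summable.tsum_finsetSum]
    · unfold H458.EC.tw
      rw [tsum_apply h2]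
      apply tsum_congr
      intro k
      rw [Pi.smul_apply, smul_eq_mul]
      by_cases hk : tc f k = 0
      · rw [hk]
        simp
      · have hk1 := hN k hk
        rw [Finset.sum_eq_single (χ k)]
        · by_cases hkA : k ∈ A
          · rw [ind_mem hkA, ind_mem (show k ∈ B (χ k) from ⟨hkA, rfl⟩)]
            ring
          · rw [ind_not hkA, ind_not (show k ∉ B (χ k) from fun h' => hkA h'.1)]
            ring
        · intro b _ hb
          rw [ind_not (show k ∉ B b from fun h' => hb h'.2.symm)]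
          ring
        · intro h'
          exact absurd (Finset.mem_range.2 (by omega)) h'
    · intro c _
      have h3 := (Pi.summable.1 (hs c) j).mul_right (t ^ c)
      refine h3.congr fun k => ?_
      rw [Pi.smul_apply, smul_eq_mul]
  let P : ℂ → Fin (n + 1) → Polynomial ℂ := fun z j =>
    ∑ c ∈ Finset.range (N + 1), Polynomial.C (H458.EC.tw (ind (B c)) f z j) * Polynomial.X ^ c
  have hPe : ∀ z t j, (P z j).eval t = H458.EC.tw (fun k => t ^ χ k * ind A k) f z j := by
    intro z t j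
    rw [hdec]
    simp only [P]
    rw [Polynomial.eval_finsetSum]
    refine Finset.sum_congr rfl fun i _ => ?_
    simp only [Polynomial.eval_mul, Polynomial.eval_C, Polynomial.eval_pow, Polynomial.eval_X]
  have hPd : ∀ z j, (P z j).natDegree ≤ N := by
    intro z j
    refine Polynomial.natDegree_sum_le_of_forall_le _ _ fun i hi => ?_
    refine (Polynomial.natDegree_C_mul_X_pow_le _ _).trans ?_
    have := Finset.mem_range.1 hi
    omega
  have hP1 : ∀ z j, (P z j).eval 1 = H458.EC.tw (ind A) f z j := by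
    intro z j
    rw [hPe]
    simp only [one_pow, one_mul]
  have hPF : ∀ z t, eval (fun j => (P z j).eval t) F = 0 := by
    intro z t
    have h1 : (fun j => (P z j).eval t) = H458.EC.tw (fun k => t ^ χ k * ind A k) f z :=
      funext (hPe z t)
    rw [h1]
    refine character' (forms_single hF) hf (C₀ := 1) (R₀ := 1) zero_le_one (bd_ind f A)
      (fun w G hGF => ?_) (C := (1 + ‖t‖) ^ N) (R := 1) zero_le_one (fun k hk => ?_)
      (fr_of_frei hχ t) z F rfl
    · rw [Set.mem_singleton_iff] at hGF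
      subst hGF
      exact h.cone hF hf h0 hfF w
    · rw [norm_mul, norm_pow, one_pow, mul_one]
      calc ‖t‖ ^ χ k * ‖ind A k‖ ≤ (1 + ‖t‖) ^ χ k * 1 := by
            gcongr
            · linarith
            · exact norm_ind A k
        _ ≤ (1 + ‖t‖) ^ N := by
            rw [mul_one]
            exact pow_le_pow_right₀ (by linarith [norm_nonneg t]) (hN k hk)
  have hPc : ∀ z j, (P z j).coeff c = H458.EC.tw (ind (B c)) f z j := by
    intro z j
    simp only [P]
    rw [Polynomial.finsetSum_coeff, Finset.sum_eq_single c]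
    · rw [Polynomial.coeff_C_mul, Polynomial.coeff_X_pow, if_pos rfl, mul_one]
    · intro b _ hb
      rw [Polynomial.coeff_C_mul, Polynomial.coeff_X_pow, if_neg (fun h' => hb h'.symm), mul_zero]
    · intro h'
      exact absurd (Finset.mem_range.2 (by omega)) h'
  have hpt : ∀ z j k, H458.EC.tw (ind (B c)) f z j * H458.EC.tw (ind A) f z k
      = H458.EC.tw (ind (B c)) f z k * H458.EC.tw (ind A) f z j := by
    intro z j k
    have h1 : P z j * Polynomial.C ((P z k).eval 1) = P z k * Polynomial.C ((P z j).eval 1) := by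
      apply Polynomial.funext
      intro s
      rw [Polynomial.eval_mul, Polynomial.eval_mul, Polynomial.eval_C, Polynomial.eval_C]
      exact no_gm hG (hPd z) (fun t _ => hPF z t) s 1 j k
    have h2 := congrArg (fun q => Polynomial.coeff q c) h1
    simp only [Polynomial.coeff_mul_C] at h2
    rw [hPc, hPc, hP1, hP1] at h2
    exact h2
  have hEA := ent_ser hf zero_le_one (bd_ind f A)
  have hEB := ent_ser hf zero_le_one (bd_ind f (B c))
  refine cancel (G := ser (ind A) f) h (fun j k => ?_) (fun hz j => ?_)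
  · refine eq_of_ev ((hEB j).mul (hEA k)) ((hEB k).mul (hEA j)) fun z => ?_
    rw [ev_mul (hEB j) (hEA k), ev_mul (hEB k) (hEA j), ev_ser hf zero_le_one (bd_ind f _),
      ev_ser hf zero_le_one (bd_ind f _), ev_ser hf zero_le_one (bd_ind f _),
      ev_ser hf zero_le_one (bd_ind f _)]
    exact hpt z j k
  · ext k
    rw [coeff_ser, map_zero]
    by_cases hk : k ∈ B c
    · have h1 := congrArg (PowerSeries.coeff k) (hz j)
      rw [coeff_ser, map_zero, ind_mem hk.1, one_mul] at h1
      rw [h1, mul_zero]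
    · rw [ind_not hk, zero_mul]

/-- The class of `k₀` in the set of exponents `E`. -/
def Cls (d N : ℕ) (E : Set ℕ) (k₀ : ℕ) : Set ℕ :=
  {k | k ∈ E ∧ ∀ χ : ℕ → ℕ, Frei d E χ → (∀ l ∈ E, χ l ≤ N) → χ k = χ k₀}

include hF hG hf h0 hfF in
/-- **The parts of the classes are proportional to the curve.** -/
theorem prp_cls {k₀ : ℕ} (hk₀ : tc f k₀ ≠ 0) : Prp f (Cls d N {k | tc f k ≠ 0} k₀) := by
  classical
  set E : Set ℕ := {k | tc f k ≠ 0} with hE
  have h1 : ∀ m : ℕ, ∃ A : Set ℕ, Prp f A ∧ Cls d N E k₀ ⊆ A ∧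
      ∀ k < m, k ∈ E → k ∈ A → k ∈ Cls d N E k₀ := by
    intro m
    induction m with
    | zero => exact ⟨Set.univ, fun j k => mul_comm _ _, Set.subset_univ _,
        fun k hk => absurd hk (Nat.not_lt_zero k)⟩
    | succ m ih =>
      obtain ⟨A, hA, hCA, hAm⟩ := ih
      by_cases hm : m ∈ E → m ∈ A → m ∈ Cls d N E k₀
      · refine ⟨A, hA, hCA, fun k hk hkE hkA => ?_⟩
        rcases Nat.lt_succ_iff_lt_or_eq.1 hk with h2 | h2
        · exact hAm k h2 hkE hkA
        · subst h2; exact hm hkE hkA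
      · push Not at hm
        obtain ⟨hmE, hmA, hmC⟩ := hm
        obtain ⟨χ, hχ, hχN, hne⟩ : ∃ χ : ℕ → ℕ, Frei d E χ ∧ (∀ l ∈ E, χ l ≤ N) ∧
            χ m ≠ χ k₀ := by
          by_contra hcon
          push Not at hcon
          exact hmC ⟨hmE, fun χ h2 h3 => hcon χ h2 h3⟩
        refine ⟨A ∩ {k | χ k = χ k₀}, hA.step hF hG hf h0 hfF hχ hχN _ (hχN k₀ hk₀),
          fun k hk => ⟨hCA hk, hk.2 χ hχ hχN⟩, fun k hk hkE hkA => ?_⟩
        rcases Nat.lt_succ_iff_lt_or_eq.1 hk with h2 | h2
        · exact hAm k h2 hkE hkA.1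
        · subst h2; exact absurd hkA.2 hne
  intro j k
  ext m
  obtain ⟨A, hA, hCA, hAm⟩ := h1 (m + 1)
  have h2 := congrArg (PowerSeries.coeff m) (hA j k)
  have h3 : ∀ j k : Fin (n + 1), PowerSeries.coeff m
      (ser (ind (Cls d N E k₀)) f j * ser (ind Set.univ) f k)
      = PowerSeries.coeff m (ser (ind A) f j * ser (ind Set.univ) f k) := by
    intro j k
    rw [PowerSeries.coeff_mul, PowerSeries.coeff_mul]
    refine Finset.sum_congr rfl fun p hp => ?_
    have hp' : p.1 + p.2 = m := by simpa using hp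
    rw [coeff_ser, coeff_ser (ind A)]
    congr 1
    by_cases hpE : tc f p.1 = 0
    · rw [hpE]; simp
    · by_cases hpA : p.1 ∈ A
      · rw [ind_mem hpA, ind_mem (hAm p.1 (by omega) hpE hpA)]
      · rw [ind_not hpA, ind_not fun h' => hpA (hCA h')]
  rw [h3 j k, h3 k j]
  exact h2

include hF hG hf h0 hfF in
/-- A class of small diameter. -/
theorem const_of_cls {k₀ : ℕ} (hk₀ : tc f k₀ ≠ 0)
    (hdiam : ∀ k ∈ Cls d N {k | tc f k ≠ 0} k₀, ∀ l ∈ Cls d N {k | tc f k ≠ 0} k₀, k ≤ l + N)
    (z w : ℂ) : ∃ c : ℂ, f z = c • f w := by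
  classical
  set C := Cls d N {k | tc f k ≠ 0} k₀ with hC
  have hk₀C : k₀ ∈ C := ⟨hk₀, fun _ _ _ => rfl⟩
  have hex : ∃ k, k ∈ C := ⟨k₀, hk₀C⟩
  set a := Nat.find hex with ha
  have haC : a ∈ C := Nat.find_spec hex
  have hle : ∀ k ∈ C, a ≤ k := fun k hk => Nat.find_min' hex hk
  have hPrp := prp_cls hF hG hf h0 hfF hk₀
  rw [← hC] at hPrp
  let P : Fin (n + 1) → Polynomial ℂ := fun j =>
    ∑ i ∈ Finset.range (N + 1), Polynomial.C (ind C (a + i) * tc f (a + i) j) * Polynomial.X ^ i
  have hPc : ∀ j i, (P j).coeff i = ind C (a + i) * tc f (a + i) j := by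
    intro j i
    simp only [P]
    rw [Polynomial.finsetSum_coeff]
    by_cases hi : i < N + 1
    · rw [Finset.sum_eq_single i]
      · rw [Polynomial.coeff_C_mul, Polynomial.coeff_X_pow, if_pos rfl, mul_one]
      · intro b _ hb
        rw [Polynomial.coeff_C_mul, Polynomial.coeff_X_pow, if_neg (fun h' => hb h'.symm), mul_zero]
      · intro h'
        exact absurd (Finset.mem_range.2 hi) h'
    · rw [ind_not (fun h' => hi (by have := hdiam _ h' a haC; omega)), zero_mul]
      refine Finset.sum_eq_zero fun b hb => ?_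
      have := Finset.mem_range.1 hb
      rw [Polynomial.coeff_C_mul, Polynomial.coeff_X_pow, if_neg (by omega), mul_zero]
  have hPd : ∀ j, (P j).natDegree ≤ N := by
    intro j
    refine Polynomial.natDegree_sum_le_of_forall_le _ _ fun i hi => ?_
    refine (Polynomial.natDegree_C_mul_X_pow_le _ _).trans ?_
    have := Finset.mem_range.1 hi
    omega
  have hser : ∀ j, ser (ind C) f j = PowerSeries.X ^ a * (P j : ℂ⟦X⟧) := by
    intro j
    ext k
    rw [coeff_ser, PowerSeries.coeff_X_pow_mul', Polynomial.coeff_coe, hPc]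
    by_cases hk : a ≤ k
    · rw [if_pos hk, Nat.add_sub_cancel' hk]
    · rw [if_neg hk, ind_not fun h' => hk (hle k h'), zero_mul]
  have htw : ∀ t j, H458.EC.tw (ind C) f t j = t ^ a * (P j).eval t := by
    intro t j
    rw [← ev_ser hf zero_le_one (bd_ind f C)]
    unfold ev
    rw [tsum_eq_sum (s := Finset.range (a + N + 1))]
    · rw [Polynomial.eval_eq_sum_range' (n := N + 1) (by have := hPd j; omega), add_assoc,
        Finset.sum_range_add, Finset.sum_eq_zero, zero_add, Finset.mul_sum]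
      · refine Finset.sum_congr rfl fun i _ => ?_
        rw [coeff_ser, hPc, pow_add]
        ring
      · intro i hi
        have := Finset.mem_range.1 hi
        rw [coeff_ser, ind_not fun h' => by have := hle i h'; omega]
        ring
    · intro k hk
      rw [coeff_ser, ind_not fun h' => hk ?_, zero_mul, zero_mul]
      have := hdiam _ h' a haC
      exact Finset.mem_range.2 (by omega)
  have hPF : ∀ t, t ≠ 0 → eval (fun j => (P j).eval t) F = 0 := by
    intro t ht
    have h1 := hPrp.cone hF hf h0 hfF t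
    have h2 : H458.EC.tw (ind C) f t = fun j => t ^ a * (P j).eval t := funext (htw t)
    rw [h2, eval_homog hF] at h1
    exact (mul_eq_zero.1 h1).resolve_left (pow_ne_zero _ (pow_ne_zero _ ht))
  have h3 := no_gm hG hPd hPF
  have h4 : ∀ j, (P j).eval 0 = tc f a j := by
    intro j
    rw [← Polynomial.coeff_zero_eq_eval_zero, hPc, add_zero, ind_mem haC, one_mul]
  have h5 : ∀ j k, ser (ind C) f j * PowerSeries.C (tc f a k)
      = ser (ind C) f k * PowerSeries.C (tc f a j) := by
    intro j k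
    have h6 : P j * Polynomial.C (tc f a k) = P k * Polynomial.C (tc f a j) := by
      apply Polynomial.funext
      intro s
      rw [Polynomial.eval_mul, Polynomial.eval_mul, Polynomial.eval_C, Polynomial.eval_C,
        ← h4, ← h4]
      exact h3 s 0 j k
    have h7 := congrArg (fun q : Polynomial ℂ => (q : ℂ⟦X⟧)) h6
    simp only [Polynomial.coe_mul, Polynomial.coe_C] at h7
    rw [hser, hser, mul_assoc, mul_assoc, h7]
  obtain ⟨l, hl⟩ : ∃ l, tc f a l ≠ 0 := by
    by_contra hcon
    push Not at hcon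
    exact haC.1 (funext hcon)
  have hl' : ser (ind C) f l ≠ 0 := by
    intro h'
    have := congrArg (PowerSeries.coeff a) h'
    rw [coeff_ser, ind_mem haC, one_mul, map_zero] at this
    exact hl this
  have h6 : ∀ j k, PowerSeries.C (tc f a j) * ser (ind Set.univ) f k
      = PowerSeries.C (tc f a k) * ser (ind Set.univ) f j := by
    intro j k
    apply mul_left_cancel₀ hl'
    calc ser (ind C) f l * (PowerSeries.C (tc f a j) * ser (ind Set.univ) f k)
        = PowerSeries.C (tc f a j) * (ser (ind C) f l * ser (ind Set.univ) f k) := by ring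
      _ = (ser (ind C) f k * PowerSeries.C (tc f a j)) * ser (ind Set.univ) f l := by
          rw [hPrp l k]; ring
      _ = (ser (ind C) f j * PowerSeries.C (tc f a k)) * ser (ind Set.univ) f l := by
          rw [h5 j k]
      _ = PowerSeries.C (tc f a k) * (ser (ind C) f j * ser (ind Set.univ) f l) := by ring
      _ = PowerSeries.C (tc f a k) * (ser (ind C) f l * ser (ind Set.univ) f j) := by
          rw [hPrp j l]
      _ = ser (ind C) f l * (PowerSeries.C (tc f a k) * ser (ind Set.univ) f j) := by ring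
  have h7 : ∀ z j k, tc f a j * f z k = tc f a k * f z j := by
    intro z j k
    have h8 := congrArg (fun B => ev B z) (h6 j k)
    have hU := ent_ser hf zero_le_one (bd_ind f Set.univ)
    rw [ev_mul (Ent.C _) (hU k), ev_mul (Ent.C _) (hU j), ev_C, ev_C,
      ev_ser hf zero_le_one (bd_ind f Set.univ), ev_ser hf zero_le_one (bd_ind f Set.univ),
      ind_univ, tw_one hf] at h8
    exact h8
  have hl2 : ∀ z, f z l ≠ 0 := by
    intro z hz
    apply h0 z
    funext k
    have := h7 z l k
    rw [hz, mul_zero] at this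
    exact (mul_eq_zero.1 this).resolve_left hl
  refine ⟨f z l / f w l, funext fun j => ?_⟩
  rw [Pi.smul_apply, smul_eq_mul, div_mul_eq_mul_div, eq_div_iff (hl2 w)]
  apply mul_left_cancel₀ hl
  have h8 := h7 z l j
  have h9 := h7 w l j
  calc tc f a l * (f z j * f w l) = (tc f a l * f z j) * f w l := by ring
    _ = (tc f a j * f z l) * f w l := by rw [h8]
    _ = f z l * (tc f a j * f w l) := by ring
    _ = f z l * (tc f a l * f w j) := by rw [h9]
    _ = tc f a l * (f z l * f w j) := by ring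

end hyp

/-! ### Digits -/

theorem div_mod_sum {m : ℕ} (hm : 0 < m) (s : Multiset ℕ) (h : (s.map fun k => k % m).sum < m) :
    s.sum / m = (s.map fun k => k / m).sum ∧ s.sum % m = (s.map fun k => k % m).sum := by
  have h1 : s.sum = (s.map fun k => k % m).sum + m * (s.map fun k => k / m).sum := by
    clear h
    induction s using Multiset.induction_on with
    | empty => simp
    | cons a s ih =>
      rw [Multiset.sum_cons, ih, Multiset.map_cons, Multiset.sum_cons, Multiset.map_cons,
        Multiset.sum_cons]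
      have := Nat.mod_add_div a m
      rw [mul_add]
      omega
  constructor
  · rw [h1, Nat.add_mul_div_left _ _ hm, Nat.div_eq_of_lt h, zero_add]
  · rw [h1, Nat.add_mul_mod_self_left, Nat.mod_eq_of_lt h]

theorem sum_le_card {s : Multiset ℕ} {N : ℕ} {g : ℕ → ℕ} (h : ∀ k ∈ s, g k ≤ N) :
    (s.map g).sum ≤ s.card * N := by
  have := Multiset.sum_le_card_nsmul (s.map g) N (by
    intro x hx
    obtain ⟨k, hk, rfl⟩ := Multiset.mem_map.1 hx
    exact h k hk)
  rwa [Multiset.card_map, smul_eq_mul] at this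

theorem digit_sum {m d N : ℕ} (hm : 0 < m) (hd : d * N < m) {s : Multiset ℕ} (hs : s.card ≤ d)
    (h : ∀ k ∈ s, ∀ i, k / m ^ i % m ≤ N) (i : ℕ) :
    s.sum / m ^ i = (s.map fun k => k / m ^ i).sum ∧
      s.sum / m ^ i % m = (s.map fun k => k / m ^ i % m).sum := by
  have h1 : ∀ i, (s.map fun k => k / m ^ i % m).sum < m := fun i => by
    have h2 := sum_le_card (s := s) (N := N) (g := fun k => k / m ^ i % m) fun k hk => h k hk i
    have h3 : s.card * N ≤ d * N := Nat.mul_le_mul_right _ hs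
    omega
  have h2 : ∀ i, ((s.map fun k => k / m ^ i).map fun k => k % m).sum < m := fun i => by
    rw [Multiset.map_map]
    exact h1 i
  have h3 : ∀ i, s.sum / m ^ i = (s.map fun k => k / m ^ i).sum := by
    intro i
    induction i with
    | zero => simp
    | succ i ih =>
      rw [pow_succ, ← Nat.div_div_eq_div_mul, ih, (div_mod_sum hm _ (h2 i)).1, Multiset.map_map]
      congr 1
      apply Multiset.map_congr rfl
      intro k _
      simp only [Function.comp_apply, Nat.div_div_eq_div_mul]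
  refine ⟨h3 i, ?_⟩
  rw [h3 i, (div_mod_sum hm _ (h2 i)).2, Multiset.map_map]
  rfl

theorem frei_digit {m d N : ℕ} (hm : 0 < m) (hd : d * N < m) {E : Set ℕ}
    (h : ∀ k ∈ E, ∀ i, k / m ^ i % m ≤ N) (i : ℕ) : Frei d E fun k => k / m ^ i % m := by
  intro s t hst hs hsE htE hsum
  rw [← (digit_sum hm hd hs (fun k hk => h k (hsE k hk)) i).2,
    ← (digit_sum hm hd (hst ▸ hs) (fun k hk => h k (htE k hk)) i).2, hsum]

theorem eq_of_digits {m : ℕ} (hm : 2 ≤ m) {k l : ℕ} (h : ∀ i, k / m ^ i % m = l / m ^ i % m) :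
    k = l := by
  have h1 : ∀ i, k % m ^ i = l % m ^ i := by
    intro i
    induction i with
    | zero => simp [Nat.mod_one]
    | succ i ih => rw [Nat.mod_pow_succ, Nat.mod_pow_succ, ih, h i]
  have h2 := h1 (k + l)
  have h3 : ∀ x, x < m ^ x := fun x => Nat.lt_pow_self (by omega)
  have hk : k < m ^ (k + l) := (h3 k).trans_le (Nat.pow_le_pow_right (by omega) (by omega))
  have hl : l < m ^ (k + l) := (h3 l).trans_le (Nat.pow_le_pow_right (by omega) (by omega))
  rwa [Nat.mod_eq_of_lt hk, Nat.mod_eq_of_lt hl] at h2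

section res

variable {N d : ℕ} {F : MvPolynomial (Fin (n + 1)) ℂ} (hF : F.IsHomogeneous d)
  (hG : ∀ P, ¬ GmBdd (Ideal.span {F}) 1 N P)
  {f : ℂ → Fin (n + 1) → ℂ} (hf : Differentiable ℂ f) (h0 : ∀ z, f z ≠ 0)
  (hfF : ∀ z, eval (f z) F = 0)

theorem frei_mod {m d N : ℕ} (hm : 0 < m) (hd : d * N < m) {E : Set ℕ}
    (h : ∀ k ∈ E, k % m ≤ N) : Frei d E fun k => k % m := by
  have h1 : ∀ s : Multiset ℕ, s.card ≤ d → (∀ k ∈ s, k ∈ E) →
      s.sum % m = (s.map fun k => k % m).sum := fun s hs hsE => by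
    have h2 := sum_le_card (s := s) (N := N) (g := fun k => k % m) fun k hk => h k (hsE k hk)
    have h3 : s.card * N ≤ d * N := Nat.mul_le_mul_right _ hs
    exact (div_mod_sum hm s (by omega)).2
  intro s t hst hs hsE htE hsum
  rw [← h1 s hs hsE, ← h1 t (hst ▸ hs) htE, hsum]

include hF hG hf h0 hfF in
/-- Exponents in few residue classes: the curve is invariant under rotations. -/
theorem rotation {m : ℕ} (hd : d * N < m) (h : ∀ k, tc f k ≠ 0 → k % m ≤ N) {ζ : ℂ}
    (hζ : ζ ^ m = 1) (z : ℂ) : ∃ c : ℂ, f (ζ * z) = c • f z := by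
  have hm : 0 < m := by omega
  obtain ⟨k₀, hk₀⟩ : ∃ k₀, tc f k₀ ≠ 0 := by
    by_contra hcon
    push Not at hcon
    apply h0 0
    have h1 := hasSum_tc hf 0
    simp only [hcon, smul_zero] at h1
    exact h1.unique hasSum_zero
  set A : Set ℕ := Set.univ ∩ {k | k % m = k₀ % m} with hA
  have hPrp : Prp f A := Prp.step hF hG hf h0 hfF (A := Set.univ) (fun j k => mul_comm _ _)
    (frei_mod (E := {k | tc f k ≠ 0}) hm hd h) h _ (h k₀ hk₀)
  have hkA : k₀ ∈ A := ⟨Set.mem_univ _, rfl⟩
  obtain ⟨l, hl⟩ : ∃ l, tc f k₀ l ≠ 0 := by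
    by_contra hcon
    push Not at hcon
    exact hk₀ (funext hcon)
  have hl' : ser (ind A) f l ≠ 0 := by
    intro h'
    have := congrArg (PowerSeries.coeff k₀) h'
    rw [coeff_ser, ind_mem hkA, one_mul, map_zero] at this
    exact hl this
  have hζ0 : ζ ≠ 0 := by
    rintro rfl
    rw [zero_pow hm.ne'] at hζ
    exact zero_ne_one hζ
  have hr : ∀ j, PowerSeries.rescale ζ (ser (ind A) f j)
      = PowerSeries.C (ζ ^ (k₀ % m)) * ser (ind A) f j := by
    intro j
    ext k
    rw [PowerSeries.coeff_rescale, PowerSeries.coeff_C_mul, coeff_ser]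
    by_cases hk : k ∈ A
    · congr 1
      have h1 := Nat.div_add_mod k m
      have h2 : k % m = k₀ % m := hk.2
      rw [← h1, pow_add, pow_mul, hζ, one_pow, one_mul, h2]
    · rw [ind_not hk, zero_mul, mul_zero, mul_zero]
  set Φ : Fin (n + 1) → ℂ⟦X⟧ := ser (ind Set.univ) f with hΦ
  have h1 : ∀ j k, ser (ind A) f j * PowerSeries.rescale ζ (Φ k)
      = ser (ind A) f k * PowerSeries.rescale ζ (Φ j) := by
    intro j k
    have h2 := congrArg (PowerSeries.rescale ζ) (hPrp j k)
    rw [map_mul, map_mul, hr, hr, mul_assoc, mul_assoc] at h2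
    refine mul_left_cancel₀ ?_ h2
    intro h'
    have := congrArg (PowerSeries.coeff 0) h'
    rw [PowerSeries.coeff_zero_C, map_zero] at this
    exact pow_ne_zero _ hζ0 this
  have h2 : ∀ j k, PowerSeries.rescale ζ (Φ j) * Φ k = PowerSeries.rescale ζ (Φ k) * Φ j := by
    intro j k
    apply mul_left_cancel₀ hl'
    calc ser (ind A) f l * (PowerSeries.rescale ζ (Φ j) * Φ k)
        = PowerSeries.rescale ζ (Φ j) * (ser (ind A) f l * Φ k) := by ring
      _ = PowerSeries.rescale ζ (Φ j) * (ser (ind A) f k * Φ l) := by rw [hPrp l k]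
      _ = (ser (ind A) f k * PowerSeries.rescale ζ (Φ j)) * Φ l := by ring
      _ = (ser (ind A) f j * PowerSeries.rescale ζ (Φ k)) * Φ l := by rw [h1 j k]
      _ = PowerSeries.rescale ζ (Φ k) * (ser (ind A) f j * Φ l) := by ring
      _ = PowerSeries.rescale ζ (Φ k) * (ser (ind A) f l * Φ j) := by rw [hPrp j l]
      _ = ser (ind A) f l * (PowerSeries.rescale ζ (Φ k) * Φ j) := by ring
  have hU := ent_ser hf zero_le_one (bd_ind f Set.univ)
  have hEr : ∀ j, Ent (PowerSeries.rescale ζ (Φ j)) := by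
    intro j r hr0
    have h3 := hU j (‖ζ‖ * r) (by positivity)
    refine h3.congr fun k => ?_
    rw [PowerSeries.coeff_rescale, norm_mul, norm_pow, mul_pow]
    ring
  have hev : ∀ j, ev (PowerSeries.rescale ζ (Φ j)) z = f (ζ * z) j := by
    intro j
    have h3 : f (ζ * z) j = ev (Φ j) (ζ * z) := by
      rw [hΦ, ev_ser hf zero_le_one (bd_ind f Set.univ), ind_univ, tw_one hf]
    rw [h3]
    unfold ev
    apply tsum_congr
    intro k
    rw [PowerSeries.coeff_rescale, mul_pow]
    ring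
  have hev1 : ∀ j, ev (Φ j) z = f z j := by
    intro j
    rw [hΦ, ev_ser hf zero_le_one (bd_ind f Set.univ), ind_univ, tw_one hf]
  have h3 : ∀ j k, f (ζ * z) j * f z k = f (ζ * z) k * f z j := by
    intro j k
    have h4 := congrArg (fun B => ev B z) (h2 j k)
    rw [ev_mul (hEr j) (hU k), ev_mul (hEr k) (hU j), hev, hev, hev1, hev1] at h4
    exact h4
  obtain ⟨i, hi⟩ : ∃ i, f z i ≠ 0 := by
    by_contra hcon
    push Not at hcon
    exact h0 z (funext hcon)
  refine ⟨f (ζ * z) i / f z i, funext fun j => ?_⟩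
  rw [Pi.smul_apply, smul_eq_mul, div_mul_eq_mul_div, eq_div_iff hi]
  exact h3 j i

end res

end Pool.Agent.Helper51K9.KB
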